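import Pool.Agent.H19.Tri

set_option autoImplicit false

namespace Pool.Agent.Results.MP_98d116_co.Lower

open Pool.Agent.H19.Tri

/-- Subsets of the `n` by `n` grid of size at least `c * n ^ (4 / 3)` without three translated
triangles. -/
theorem result (n : ℕ) (hn : 16 ≤ n) :
    ∃ A : Finset (ℤ × ℤ), (∀ a ∈ A, 1 ≤ a.1 ∧ a.1 ≤ n ∧ 1 ≤ a.2 ∧ a.2 ≤ n) ∧ Avoids A ∧
      n ^ 4 ≤ 3456 * A.card ^ 3 :=
  main n hn

end Pool.Agent.Results.MP_98d116_co.Lower
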